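import Mathlib
import Pool.Agent.TH855.CBounds
import Pool.Agent.TH855.Blow

set_option autoImplicit false

/-!
# Blowing up all vertices of a 2-connected graph
-/

namespace Pool.Agent.U473.HB

open Finset Pool.Agent.TH855 Pool.Agent.Helper311.Glue Classical
open scoped ENNReal

/-- Pulling back a connected graph with at least two vertices along a surjection gives a connected
graph. -/
theorem connected_comap {X U : Type} [Nontrivial U] (H : SimpleGraph U) (hH : H.Connected)
    (f : X → U) (hf : Function.Surjective f) : (H.comap f).Connected := by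
  have key : ∀ (a b : U), H.Walk a b → ∀ x y : X, f x = a → f y = b →
      (H.comap f).Reachable x y := by
    intro a b w
    induction w with
    | nil =>
      rename_i a
      intro x y hx hy
      obtain ⟨z', hz'⟩ := hH.preconnected.exists_adj_of_nontrivial a
      obtain ⟨z, rfl⟩ := hf z'
      have h1 : (H.comap f).Adj x z := by
        show H.Adj (f x) (f z)
        rw [hx]; exact hz'
      have h2 : (H.comap f).Adj z y := by
        show H.Adj (f z) (f y)
        rw [hy]; exact hz'.symm
      exact h1.reachable.trans h2.reachable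
    | cons h p ih =>
      rename_i a b c
      intro x y hx hy
      obtain ⟨z, rfl⟩ := hf b
      have h1 : (H.comap f).Adj x z := by
        show H.Adj (f x) (f z)
        rw [hx]; exact h
      exact h1.reachable.trans (ih z y rfl hy)
  have hne : Nonempty X := by
    obtain ⟨u⟩ := (inferInstance : Nonempty U)
    obtain ⟨x, _⟩ := hf u
    exact ⟨x⟩
  have := hne
  refine SimpleGraph.Connected.mk ?_
  intro x y
  obtain ⟨w⟩ := hH.preconnected (f x) (f y)
  exact key _ _ w x y rfl rfl

/-- An injection over `U` embeds pulled-back graphs. -/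
theorem contained_comap {X Y U : Type} (H : SimpleGraph U) (f : X → U) (g : Y → U) (φ : X → Y)
    (hφ : Function.Injective φ) (h : ∀ x, g (φ x) = f x) :
    (H.comap f).IsContained (H.comap g) := by
  refine ⟨⟨⟨φ, ?_⟩, hφ⟩⟩
  intro a b hab
  have hab' : H.Adj (f a) (f b) := hab
  show H.Adj (g (φ a)) (g (φ b))
  rw [h, h]
  exact hab'

/-- `H` with, for each vertex `u` of `A`, one twin of `u` for every `w` with `f w = u` added -/
def lab {W U : Type} (f : W → U) (A : Finset U) : U ⊕ {w : W // f w ∈ A} → U :=
  Sum.elim id (fun w => f w)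

theorem step {W U : Type} [Fintype W] [Fintype U] (H : SimpleGraph U)
    (hU : 3 ≤ Fintype.card U) (hH : H.Connected)
    (hH2 : ∀ x, (H.induce {z | z ≠ x}).Connected) (f : W → U) (A : Finset U) (u : U)
    (hu : u ∉ A) {c : ℝ} (hc : 0 ≤ c) (h : UpTo (H.comap (lab f A)) c) :
    UpTo (H.comap (lab f (insert u A)))
      (((Fintype.card U + Fintype.card W : ℕ) : ℝ) * c) := by
  have hnt : Nontrivial U := Fintype.one_lt_card_iff_nontrivial.1 (by omega)
  have hsurj : Function.Surjective (lab f A) := fun v => ⟨Sum.inl v, rfl⟩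
  have hconn : (H.comap (lab f A)).Connected := connected_comap H hH _ hsurj
  have hcard : Fintype.card (U ⊕ {w : W // f w ∈ A}) =
      (Fintype.card U + Fintype.card {w : W // f w ∈ A} - 1) + 1 := by
    rw [Fintype.card_sum]; omega
  have hle : Fintype.card {w : W // f w ∈ A} ≤ Fintype.card W := Fintype.card_subtype_le _
  -- the rim
  have hrim : ((H.comap (lab f A)).induce {z | z ≠ (Sum.inl u : U ⊕ {w : W // f w ∈ A})}).Connected := by
    have hnt2 : Nontrivial ({z : U | z ≠ u} : Set U) := by
      obtain ⟨x, hx⟩ := exists_ne u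
      have h2 : ∃ y, y ≠ u ∧ y ≠ x := by
        by_contra hcon
        push Not at hcon
        have h3 : (Finset.univ : Finset U) ⊆ {u, x} := by
          intro y _
          by_cases hy : y = u
          · simp [hy]
          · simp [hcon y hy]
        have h4 := Finset.card_le_card h3
        have h5 := Finset.card_le_two (a := u) (b := x)
        rw [Finset.card_univ] at h4
        omega
      obtain ⟨y, hy, hyx⟩ := h2
      exact ⟨⟨x, hx⟩, ⟨y, hy⟩, fun h => hyx (congrArg Subtype.val h).symm⟩
    have hmem : ∀ z : {z : U ⊕ {w : W // f w ∈ A} | z ≠ Sum.inl u}, lab f A z.1 ≠ u := by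
      rintro ⟨z | w, hz⟩ h
      · exact hz (by rw [show z = u from h])
      · exact hu (by rw [← (show f w.1 = u from h)]; exact w.2)
    set g : {z : U ⊕ {w : W // f w ∈ A} | z ≠ Sum.inl u} → {z : U | z ≠ u} :=
      fun z => ⟨lab f A z.1, hmem z⟩ with hg
    have hgs : Function.Surjective g := by
      rintro ⟨v, hv⟩
      exact ⟨⟨Sum.inl v, fun h => hv (Sum.inl_injective h)⟩, rfl⟩
    have h1 := connected_comap (H.induce {z | z ≠ u}) (hH2 u) g hgs
    exact h1
  have h1 := upTo_blow (H.comap (lab f A)) hconn
    (Fintype.card U + Fintype.card {w : W // f w ∈ A} - 1) (by omega) hcard (Sum.inl u) hrim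
    (Fintype.card W) hc h
  have h2 : UpTo (blow (H.comap (lab f A)) (Sum.inl u) (Fintype.card W))
      (((Fintype.card U + Fintype.card W : ℕ) : ℝ) * c) := by
    refine UpTo.le ?_ h1
    refine mul_le_mul_of_nonneg_right ?_ hc
    exact_mod_cast (by omega)
  refine UpTo.mono ?_ h2
  -- containment
  have e := Fintype.equivFin W
  set φ : U ⊕ {w : W // f w ∈ insert u A} → (U ⊕ {w : W // f w ∈ A}) ⊕ Fin (Fintype.card W) :=
    Sum.elim (fun v => Sum.inl (Sum.inl v))
      (fun w => if hw : f w.1 ∈ A then Sum.inl (Sum.inr ⟨w.1, hw⟩) else Sum.inr (e w.1)) with hφ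
  have hinj : Function.Injective φ := by
    rintro (a | a) (b | b) hab
    · simp only [hφ, Sum.elim_inl] at hab
      rw [Sum.inl_injective (Sum.inl_injective hab)]
    · simp only [hφ, Sum.elim_inl, Sum.elim_inr] at hab
      split_ifs at hab with h
      exact absurd (Sum.inl_injective hab) (by simp)
    · simp only [hφ, Sum.elim_inl, Sum.elim_inr] at hab
      split_ifs at hab with h
      exact absurd (Sum.inl_injective hab) (by simp)
    · simp only [hφ, Sum.elim_inr] at hab
      split_ifs at hab with h h' h'
      · have h3 := Sum.inr_injective (Sum.inl_injective hab)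
        have h4 := congrArg Subtype.val h3
        exact congrArg Sum.inr (Subtype.ext h4)
      · have h3 := e.injective (Sum.inr_injective hab)
        exact congrArg Sum.inr (Subtype.ext h3)
  have hover : ∀ z, Sum.elim (lab f A) (fun _ : Fin (Fintype.card W) => u) (φ z) =
      lab f (insert u A) z := by
    rintro (a | a)
    · rfl
    · simp only [hφ, Sum.elim_inr]
      split_ifs with h
      · rfl
      · have h5 : f a.1 = u := by
          rcases Finset.mem_insert.1 a.2 with h6 | h6
          · exact h6
          · exact absurd h6 h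
        show u = f a.1
        exact h5.symm
  have h3 := contained_comap H (lab f (insert u A))
    (Sum.elim (lab f A) (fun _ : Fin (Fintype.card W) => u)) φ hinj hover
  have h4 : H.comap (Sum.elim (lab f A) (fun _ : Fin (Fintype.card W) => u)) =
      blow (H.comap (lab f A)) (Sum.inl u) (Fintype.card W) := by
    ext a b
    rcases a with a | a <;> rcases b with b | b <;> rfl
  rwa [h4] at h3

theorem upTo_all {W U : Type} [Fintype W] [Fintype U] (H : SimpleGraph U)
    (hU : 3 ≤ Fintype.card U) (hH : H.Connected)
    (hH2 : ∀ x, (H.induce {z | z ≠ x}).Connected) (f : W → U) {c : ℝ} (hc : 0 ≤ c)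
    (h : UpTo H c) (A : Finset U) :
    UpTo (H.comap (lab f A)) ((((Fintype.card U + Fintype.card W : ℕ) : ℝ)) ^ A.card * c) := by
  induction A using Finset.induction_on with
  | empty =>
    have h1 : UpTo (H.comap (lab f ∅)) c := by
      refine UpTo.mono ?_ h
      have hinj : Function.Injective (lab f ∅) := by
        rintro (a | ⟨a, ha⟩) (b | ⟨b, hb⟩) hab
        · rw [show a = b from hab]
        · exact absurd hb (Finset.notMem_empty _)
        · exact absurd ha (Finset.notMem_empty _)
        · exact absurd ha (Finset.notMem_empty _)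
      have h2 := contained_comap H (lab f ∅) id (lab f ∅) hinj (fun _ => rfl)
      rwa [SimpleGraph.comap_id] at h2
    simpa using h1
  | insert u A hu ih =>
    have h1 := step H hU hH hH2 f A u hu (mul_nonneg (by positivity) hc) ih
    rw [Finset.card_insert_of_notMem hu, pow_succ']
    rwa [mul_assoc]

theorem contained_all {W U : Type} [Fintype U] (F : SimpleGraph W) (H : SimpleGraph U)
    (f : F →g H) : F.IsContained (H.comap (lab f (Finset.univ : Finset U))) := by
  refine ⟨⟨⟨fun w => Sum.inr ⟨w, Finset.mem_univ _⟩, ?_⟩, ?_⟩⟩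
  · intro a b hab
    exact f.map_adj hab
  · intro a b hab
    exact congrArg Subtype.val (Sum.inr_injective hab)

/-- `H` has at least three vertices and stays connected when any vertex is deleted. -/
def TwoConnected {U : Type} (H : SimpleGraph U) : Prop :=
  3 ≤ Nat.card U ∧ ∀ x, (H.induce {z | z ≠ x}).Connected

theorem TwoConnected.connected {U : Type} [Fintype U] {H : SimpleGraph U} (h : TwoConnected H) :
    H.Connected := by
  obtain ⟨h1, h2⟩ := h
  rw [Nat.card_eq_fintype_card] at h1
  have hne : Nonempty U := Fintype.card_pos_iff.1 (by omega)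
  refine SimpleGraph.Connected.mk ?_
  intro a b
  have h3 : ∃ x, x ≠ a ∧ x ≠ b := by
    by_contra hcon
    push Not at hcon
    have h3 : (Finset.univ : Finset U) ⊆ {a, b} := by
      intro y _
      by_cases hy : y = a
      · simp [hy]
      · simp [hcon y hy]
    have h4 := Finset.card_le_card h3
    have h5 := Finset.card_le_two (a := a) (b := b)
    rw [Finset.card_univ] at h4
    omega
  obtain ⟨x, hxa, hxb⟩ := h3
  have h4 := (h2 x).preconnected ⟨a, hxa.symm⟩ ⟨b, hxb.symm⟩
  exact h4.map (SimpleGraph.Embedding.induce (G := H) {z | z ≠ x}).toHom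

/-- **Main bound.** -/
theorem hom_bound {W U : Type} [Fintype W] [Fintype U] (F : SimpleGraph W) (H : SimpleGraph U)
    (hH : TwoConnected H) (f : F →g H) :
    c F ≤ ((Fintype.card U + Fintype.card W : ℕ) : ℝ≥0∞) ^ Fintype.card U * c H := by
  have hU : 3 ≤ Fintype.card U := by
    have := hH.1
    rwa [Nat.card_eq_fintype_card] at this
  by_cases h : c H = ∞
  · have hk0 : ((Fintype.card U + Fintype.card W : ℕ) : ℝ≥0∞) ^ Fintype.card U ≠ 0 := by
      apply pow_ne_zero
      rw [Ne, Nat.cast_eq_zero]; omega
    rw [h, ENNReal.mul_top hk0]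
    exact le_top
  · have h1 : UpTo H (c H).toReal :=
      upTo_of_c_le H _ ENNReal.toReal_nonneg (by rw [ENNReal.ofReal_toReal h])
    have h2 := upTo_all H hU hH.connected hH.2 f ENNReal.toReal_nonneg h1 Finset.univ
    have h3 := c_le_of_upTo F _ (by positivity) (UpTo.mono (contained_all F H f) h2)
    rwa [Finset.card_univ, ENNReal.ofReal_mul (by positivity), ENNReal.ofReal_pow (by positivity),
      ENNReal.ofReal_natCast, ENNReal.ofReal_toReal h] at h3

theorem c_mono {W U : Type} (F : SimpleGraph W) (H : SimpleGraph U) (h : H.IsContained F) :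
    c H ≤ c F := by
  by_cases hF : c F = ∞
  · rw [hF]; exact le_top
  · have h1 : UpTo F (c F).toReal :=
      upTo_of_c_le F _ ENNReal.toReal_nonneg (by rw [ENNReal.ofReal_toReal hF])
    have h2 := c_le_of_upTo H _ ENNReal.toReal_nonneg (UpTo.mono h h1)
    rwa [ENNReal.ofReal_toReal hF] at h2

theorem finite_iff {W U : Type} [Fintype W] [Fintype U] (F : SimpleGraph W) (H : SimpleGraph U)
    (hH : TwoConnected H) (f : F →g H) (hHF : H.IsContained F) : c F < ∞ ↔ c H < ∞ := by
  refine ⟨fun h => lt_of_le_of_lt (c_mono F H hHF) h, fun h => ?_⟩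
  refine lt_of_le_of_lt (hom_bound F H hH f) ?_
  exact ENNReal.mul_lt_top (ENNReal.pow_lt_top (ENNReal.natCast_lt_top _)) h

theorem twoConnected_top (r : ℕ) (hr : 3 ≤ r) : TwoConnected (⊤ : SimpleGraph (Fin r)) := by
  refine ⟨by simpa using hr, ?_⟩
  intro x
  have hne : Nonempty ({z : Fin r | z ≠ x} : Set (Fin r)) := by
    have : Nontrivial (Fin r) := Fin.nontrivial_iff_two_le.2 (by omega)
    obtain ⟨y, hy⟩ := exists_ne x
    exact ⟨⟨y, hy⟩⟩
  refine SimpleGraph.Connected.mk ?_
  intro a b
  by_cases hab : a = b
  · rw [hab]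
  · apply SimpleGraph.Adj.reachable
    show (⊤ : SimpleGraph (Fin r)).Adj a.1 b.1
    exact fun h => hab (Subtype.ext h)

end Pool.Agent.U473.HB
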